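import Pool.Agent.Run7.h371.KT.Main

/-!
# MP_3b4475_gt: the Kuratowski topologization over the box metric is not Hausdorff

`MM` is the type of mm-spaces, `Cls` the set of their isomorphism classes, `box` the box distance,
`Cl` the set of the closed subsets of `Cls`, `KConv` the Kuratowski-Painleve convergence of nets in
`Cl`, and `tauK` the topology in which a set is open iff every convergent net with limit in the set
is eventually in the set.

The closed sets used are `E a k`: the classes of the mm-spaces which are (up to null sets) of
diameter at most `a` and in which no `k` sets of diameter less than `a` carry more than half of the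
mass. For fixed `a` they converge to the empty set for `k → ∞`, and for `a n → 0` and arbitrary `k n`
the sets `E (a n) (k n)` converge to the set of the one-point space.
-/

set_option autoImplicit false

namespace Pool.Agent.Results.MP_3b4475_gt.NotHausdorff

open Run7.h371.KT
open scoped Topology

/-- The space of the closed sets with the Kuratowski topologization is not Hausdorff (two distinct
closed sets have no disjoint neighbourhoods) and not metrizable. The last part says that `tauK` is
the finest topology in which the nets that converge in the sense of Kuratowski and Painleve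
converge to their limit. -/
theorem result :
    ¬ @T2Space Cl tauK ∧
    ¬ @TopologicalSpace.MetrizableSpace Cl tauK ∧
    (∃ A B : Cl, A ≠ B ∧ ∀ U V : Set Cl, IsOpen[tauK] U → IsOpen[tauK] V → A ∈ U → B ∈ V →
      (U ∩ V).Nonempty) ∧
    (∀ t : TopologicalSpace Cl, tauK ≤ t ↔
      ∀ (ι : Type 1) [Preorder ι] [IsDirected ι (· ≤ ·)] [Nonempty ι] (A : ι → Cl) (B : Cl),
        KConv A B → Filter.Tendsto A Filter.atTop (@nhds Cl t B)) := by
  have h3 : ∃ A B : Cl, A ≠ B ∧ ∀ U V : Set Cl, IsOpen[tauK] U → IsOpen[tauK] V → A ∈ U → B ∈ V →
      (U ∩ V).Nonempty := by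
    refine ⟨⟨∅, empty_closed⟩, ⟨E0, E0_closed⟩, ?_, not_sep⟩
    intro h
    exact E0_ne (congrArg Subtype.val h).symm
  have h1 : ¬ @T2Space Cl tauK := by
    intro h
    obtain ⟨A, B, hAB, hsep⟩ := h3
    obtain ⟨U, V, hU, hV, hA, hB, hd⟩ := @t2_separation Cl tauK h A B hAB
    obtain ⟨z, hz⟩ := hsep U V hU hV hA hB
    exact (Set.disjoint_left.1 hd) hz.1 hz.2
  refine ⟨h1, ?_, h3, ?_⟩
  · intro h
    letI : TopologicalSpace Cl := tauK
    haveI : TopologicalSpace.MetrizableSpace Cl := h
    exact h1 (TopologicalSpace.t2Space_of_metrizableSpace)
  · intro t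
    constructor
    · intro h ι _ _ _ A B hAB
      letI : TopologicalSpace Cl := t
      rw [tendsto_nhds]
      intro O hO hB
      have h2 : Ev A O := h O hO ι A B hAB hB
      exact Filter.eventually_atTop.2 h2
    · intro h O hO ι _ _ _ A B hAB hB
      letI : TopologicalSpace Cl := t
      exact Filter.eventually_atTop.1 ((h ι A B hAB).eventually (IsOpen.mem_nhds hO hB))

end Pool.Agent.Results.MP_3b4475_gt.NotHausdorff
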